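import Pool.Agent.Helper14.W5.StD

/-!
# Module Hk2 of project W5: the rows of the second Hecke operator on the plane
-/

set_option autoImplicit false

namespace Pool.Agent.Helper8.W5

open Pool.Agent.Helper14.CV (Homog EqC act Tl)
open Pool.Agent.Helper28.WK (SymP Tw evw Ok)
open Pool.Agent.Helper14.W5

section

variable {R : Type} [AddCommGroup R] {r s : ℕ}

private lemma comp (u1 u2 w1 w2 v1 v2 : ℤ) (G : ℤ → ℤ → R) :
    (edge5 0 u1 u2 v1 v2 G : ZMod (5 ^ r) → ZMod (5 ^ s) → R) =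
      edge5 0 u1 u2 w1 w2 G + edge5 0 w1 w2 v1 v2 G := by
  funext x y
  simp only [Pi.add_apply, edge5]
  abel

private lemma comp' (u1 u2 w1 w2 v1 v2 : ℤ) (G : ℤ → ℤ → R) :
    (edge5 0 w1 w2 v1 v2 G : ZMod (5 ^ r) → ZMod (5 ^ s) → R) =
      edge5 0 u1 u2 v1 v2 G - edge5 0 u1 u2 w1 w2 G := by
  funext x y
  simp only [Pi.sub_apply, edge5]
  abel

private lemma scaleV {G : ℤ → ℤ → R} (hH : Homog G) (k u1 u2 v1 v2 : ℤ) (hk : k ≠ 0)
    (hv : v1 ≠ 0 ∨ v2 ≠ 0) :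
    (edge5 0 u1 u2 (k * v1) (k * v2) G : ZMod (5 ^ r) → ZMod (5 ^ s) → R) =
      edge5 0 u1 u2 v1 v2 G := by
  funext x y
  simp only [edge5]
  congr 1
  set X : ℤ := ((x.val : ℕ) : ℤ)
  set Y : ℤ := rY5 0 x y
  have hne : v1 + 5 ^ 0 * X * v2 ≠ 0 ∨ 5 * Y * v1 + (1 + 5 ^ (0 + 1) * X * Y) * v2 ≠ 0 := by
    by_contra h
    push Not at h
    obtain ⟨h1, h2⟩ := h
    have e2 : v2 = 0 := by linear_combination h2 - 5 * Y * h1
    have e1 : v1 = 0 := by rw [e2] at h1; linear_combination h1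
    rcases hv with hv | hv
    · exact hv e1
    · exact hv e2
  rw [← hH k _ _ hk hne]
  congr 1 <;> ring

private lemma swapE (u1 u2 v1 v2 : ℤ) (G : ℤ → ℤ → R) :
    (edge5 0 u1 u2 v1 v2 G : ZMod (5 ^ r) → ZMod (5 ^ s) → R) = -edge5 0 v1 v2 u1 u2 G := by
  funext x y
  simp only [Pi.neg_apply, edge5]
  abel

private lemma scaleU {G : ℤ → ℤ → R} (hH : Homog G) (k u1 u2 v1 v2 : ℤ) (hk : k ≠ 0)
    (hu : u1 ≠ 0 ∨ u2 ≠ 0) :
    (edge5 0 (k * u1) (k * u2) v1 v2 G : ZMod (5 ^ r) → ZMod (5 ^ s) → R) =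
      edge5 0 u1 u2 v1 v2 G := by
  rw [swapE, scaleV hH k v1 v2 u1 u2 hk hu, ← swapE]

private lemma opL_nil {q q' : ℕ} (F : Fn5 q q') : opL [] F = 0 := rfl

private lemma opL_cons {q q' : ℕ} (k a b c d : ℤ) (L : List Tm) (F : Fn5 q q') :
    opL ((k, a, b, c, d) :: L) F = ((k : ℤ) : ZMod 5) • tr5 a b c d F + opL L F := by
  simp only [opL, List.map_cons, List.sum_cons, LinearMap.add_apply, LinearMap.smul_apply]
  rfl

end

theorem hHk2 (hf : S5HkF) (ht : S5Tre) (hm : S5Trm) : S5Hk2 := by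
  intro r s G hG i
  have hH := hG.1
  -- the Hecke formula
  have hmain : ∀ e : ℤ, (edge5 0 1 e 0 1 (Tl 2 (5 ^ r) G) : Fn5 (5 ^ r) (5 ^ s)) =
      tr5 1 0 0 2 (edge5 0 2 e 0 1 G) + (tr5 2 0 0 1 (edge5 0 1 (2 * e) 0 2 G) +
        tr5 2 (-1) 0 1 (edge5 0 (1 + e) (2 * e) 1 2 G)) := by
    intro e
    funext x y
    have h := hf (ZMod 5) inferInstance r s 2 G {0, 1} Nat.prime_two (by norm_num) hG
      (by decide) (by decide) 1 e 0 1 (Or.inl one_ne_zero) (Or.inr one_ne_zero) x y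
    rw [Finset.sum_insert (by decide), Finset.sum_singleton] at h
    simp only [Nat.cast_ofNat, mul_zero, add_zero, mul_one, neg_zero, zero_mul, one_mul,
      zero_add] at h
    exact h
  -- translated paths
  have hE : ∀ (a b c d u1 u2 v1 v2 : ℤ), a * d - 5 * b * c = 1 → (u1 ≠ 0 ∨ u2 ≠ 0) →
      (v1 ≠ 0 ∨ v2 ≠ 0) →
      (edge5 0 (a * u1 + b * u2) (5 * c * u1 + d * u2) (a * v1 + b * v2)
        (5 * c * v1 + d * v2) G : Fn5 (5 ^ r) (5 ^ s)) = tr5 a b c d (edge5 0 u1 u2 v1 v2 G) := by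
    intro a b c d u1 u2 v1 v2 h hu hv
    funext x y
    exact ht (ZMod 5) inferInstance r s G hG a b c d u1 u2 v1 v2 h hu hv x y
  have hM : ∀ (F : Fn5 (5 ^ r) (5 ^ s)) (a b c d a' b' c' d' : ℤ), ¬ 5 ∣ a → ¬ 5 ∣ d → ¬ 5 ∣ a' →
      ¬ 5 ∣ d' → tr5 a b c d (tr5 a' b' c' d' F) =
      tr5 (a * a' + 5 * b * c') (a * b' + b * d') (c * a' + d * c') (5 * c * b' + d * d') F :=
    fun F => (hm (ZMod 5) r s F).1
  have tadd : ∀ (a b c d : ℤ) (F F' : Fn5 (5 ^ r) (5 ^ s)),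
      tr5 a b c d (F + F') = tr5 a b c d F + tr5 a b c d F' := fun _ _ _ _ _ _ => rfl
  have tsub : ∀ (a b c d : ℤ) (F F' : Fn5 (5 ^ r) (5 ^ s)),
      tr5 a b c d (F - F') = tr5 a b c d F - tr5 a b c d F' := fun _ _ _ _ _ _ => rfl
  have tneg : ∀ (a b c d : ℤ) (F : Fn5 (5 ^ r) (5 ^ s)),
      tr5 a b c d (-F) = -tr5 a b c d F := fun _ _ _ _ _ => rfl
  have p0 : (edge5 0 1 0 0 1 G : Fn5 (5 ^ r) (5 ^ s)) = pf5 G 0 := rfl
  have p1 : (edge5 0 1 2 0 1 G : Fn5 (5 ^ r) (5 ^ s)) = pf5 G 1 := rfl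
  -- the path from zero to one
  have q1 : (edge5 0 1 1 0 1 G : Fn5 (5 ^ r) (5 ^ s)) = pf5 G 0 - tr5 1 1 0 1 (pf5 G 0) := by
    have h := hE 1 1 0 1 1 0 0 1 (by norm_num) (Or.inl one_ne_zero) (Or.inr one_ne_zero)
    norm_num at h
    rw [comp' 1 0 1 1 0 1, h, p0]
  have z0 : e5 0 = 0 := rfl
  have z1 : e5 1 = 2 := rfl
  rw [Fin.sum_univ_two]
  have hpf : (pf5 (Tl 2 (5 ^ r) G) i : Fn5 (5 ^ r) (5 ^ s)) =
    edge5 0 1 (e5 i) 0 1 (Tl 2 (5 ^ r) G) := rfl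
  rw [hpf, hmain]
  fin_cases i
  · -- row 0
    have a0 : (edge5 0 2 0 0 1 G : Fn5 (5 ^ r) (5 ^ s)) = pf5 G 0 := by
      have h := scaleU (r := r) (s := s) hH 2 1 0 0 1 two_ne_zero (Or.inl one_ne_zero)
      norm_num at h
      rw [h, p0]
    have a1 : (edge5 0 1 0 0 2 G : Fn5 (5 ^ r) (5 ^ s)) = pf5 G 0 := by
      have h := scaleV (r := r) (s := s) hH 2 1 0 0 1 two_ne_zero (Or.inr one_ne_zero)
      norm_num at h
      rw [h, p0]
    have a2 : (edge5 0 1 0 1 2 G : Fn5 (5 ^ r) (5 ^ s)) = pf5 G 0 - pf5 G 1 := by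
      rw [← p0, ← p1, comp 1 0 1 2 0 1]
      abel
    have z : e5 (⟨0, by norm_num⟩ : Fin 2) = 0 := rfl
    rw [z]
    norm_num
    rw [a0, a1, a2, tsub]
    simp only [T2L, opL_cons, opL_nil, Int.cast_one, Int.cast_neg, one_smul, neg_smul]
    abel
  · -- row 1
    have a0 : (edge5 0 2 2 0 1 G : Fn5 (5 ^ r) (5 ^ s)) = pf5 G 0 - tr5 1 1 0 1 (pf5 G 0) := by
      have h := scaleU (r := r) (s := s) hH 2 1 1 0 1 two_ne_zero (Or.inl one_ne_zero)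
      norm_num at h
      rw [h, q1]
    have a1 : (edge5 0 1 4 0 2 G : Fn5 (5 ^ r) (5 ^ s)) =
        -tr5 1 (-1) 1 (-4) (pf5 G 0 - tr5 1 1 0 1 (pf5 G 0)) := by
      have h := scaleV (r := r) (s := s) hH 2 1 4 0 1 two_ne_zero (Or.inr one_ne_zero)
      have h1 := scaleV (r := r) (s := s) hH (-1) 0 1 1 4 (by norm_num) (Or.inl one_ne_zero)
      have h2 := hE 1 (-1) 1 (-4) 1 1 0 1 (by norm_num) (Or.inl one_ne_zero) (Or.inr one_ne_zero)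
      norm_num at h h1 h2
      rw [h, swapE, ← h1, h2, q1]
    have a2 : (edge5 0 3 4 1 2 G : Fn5 (5 ^ r) (5 ^ s)) =
        tr5 4 (-1) 1 (-1) (pf5 G 0 - tr5 1 1 0 1 (pf5 G 0)) +
          (pf5 G 0 - tr5 1 1 0 1 (pf5 G 0) - pf5 G 1) := by
      have h1 := scaleV (r := r) (s := s) hH (-1) 3 4 1 1 (by norm_num) (Or.inl one_ne_zero)
      have h2 := hE 4 (-1) 1 (-1) 1 1 0 1 (by norm_num) (Or.inl one_ne_zero) (Or.inr one_ne_zero)
      have h3 : (edge5 0 1 1 1 2 G : Fn5 (5 ^ r) (5 ^ s)) =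
          pf5 G 0 - tr5 1 1 0 1 (pf5 G 0) - pf5 G 1 := by
        rw [← q1, ← p1, comp 1 1 1 2 0 1]
        abel
      norm_num at h1 h2
      rw [comp 3 4 1 1 1 2, h3, ← h1, h2, q1]
    have z : e5 (⟨1, by norm_num⟩ : Fin 2) = 2 := rfl
    rw [z]
    norm_num
    have c1 : ∀ F : Fn5 (5 ^ r) (5 ^ s), tr5 1 0 0 2 (tr5 1 1 0 1 F) = tr5 1 1 0 2 F := by
      intro F
      rw [hM _ _ _ _ _ _ _ _ _ (by norm_num) (by norm_num) (by norm_num) (by norm_num)]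
      norm_num
    have c2 : ∀ F : Fn5 (5 ^ r) (5 ^ s), tr5 2 0 0 1 (tr5 1 (-1) 1 (-4) F) = tr5 2 (-2) 1 (-4) F := by
      intro F
      rw [hM _ _ _ _ _ _ _ _ _ (by norm_num) (by norm_num) (by norm_num) (by norm_num)]
      norm_num
    have c3 : ∀ F : Fn5 (5 ^ r) (5 ^ s), tr5 2 (-2) 1 (-4) (tr5 1 1 0 1 F) = tr5 2 0 1 1 F := by
      intro F
      rw [hM _ _ _ _ _ _ _ _ _ (by norm_num) (by norm_num) (by norm_num) (by norm_num)]
      norm_num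
    have c4 : ∀ F : Fn5 (5 ^ r) (5 ^ s), tr5 2 (-1) 0 1 (tr5 1 1 0 1 F) = tr5 2 1 0 1 F := by
      intro F
      rw [hM _ _ _ _ _ _ _ _ _ (by norm_num) (by norm_num) (by norm_num) (by norm_num)]
      norm_num
    have c5 : ∀ F : Fn5 (5 ^ r) (5 ^ s), tr5 2 (-1) 0 1 (tr5 4 (-1) 1 (-1) F) = tr5 3 (-1) 1 (-1) F := by
      intro F
      rw [hM _ _ _ _ _ _ _ _ _ (by norm_num) (by norm_num) (by norm_num) (by norm_num)]
      norm_num
    have c6 : ∀ F : Fn5 (5 ^ r) (5 ^ s), tr5 3 (-1) 1 (-1) (tr5 1 1 0 1 F) = tr5 3 2 1 4 F := by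
      intro F
      rw [hM _ _ _ _ _ _ _ _ _ (by norm_num) (by norm_num) (by norm_num) (by norm_num)]
      norm_num
    rw [a0, a1, a2, tneg, tadd]
    simp only [tsub, c1, c2, c3, c4, c5, c6]
    simp only [T2L, opL_cons, opL_nil, Int.cast_one, Int.cast_neg, one_smul, neg_smul]
    abel

end Pool.Agent.Helper8.W5
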